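import Pool.Agent.H73.LPC.Stmts

set_option autoImplicit false

open Set Filter Topology MeasureTheory Metric

namespace Pool.LPC

open Pool.PHS

theorem ITP_thm : ITPStmt := by
  intro n D f hf k
  induction k with
  | zero =>
    refine ⟨fun z hz => hz, ?_, ?_⟩
    · simpa using differentiableOn_id
    · intro K hK hc
      have h : D ∩ (f^[0]) ⁻¹' K = K := by
        ext z
        constructor
        · intro h
          exact h.2
        · intro h
          exact ⟨hK h, h⟩
      rw [h]
      exact hc
  | succ k ih =>
    have e : f^[k + 1] = f^[k] ∘ f := Function.iterate_succ f k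
    refine ⟨?_, ?_, ?_⟩
    · rw [e]
      exact ih.maps.comp hf.maps
    · rw [e]
      exact ih.hol.comp hf.hol hf.maps
    · intro K hK hc
      have h : D ∩ (f^[k + 1]) ⁻¹' K = D ∩ f ⁻¹' (D ∩ (f^[k]) ⁻¹' K) := by
        rw [e]
        ext z
        constructor
        · intro h
          exact ⟨h.1, hf.maps h.1, h.2⟩
        · intro h
          exact ⟨h.1, h.2.2⟩
      rw [h]
      exact hf.proper _ (fun z hz => hz.1) (ih.proper K hK hc)

end Pool.LPC
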