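import Pool.Agent.H73.LPC.Stmts

set_option autoImplicit false

open Set Filter Topology MeasureTheory Metric

namespace Pool.LPC

open Pool.PHS Polynomial

private theorem nwt_ev (s : Multiset ℂ) (h : ∀ k : ℕ, 1 ≤ k → (s.map fun a => a ^ k).sum = 0)
    (P : ℂ[X]) : (s.map fun a => P.eval a).sum = P.coeff 0 * (Multiset.card s : ℂ) := by
  induction P using Polynomial.induction_on' with
  | add p q hp hq =>
    simp only [eval_add, Multiset.sum_map_add, hp, hq, coeff_add]
    ring
  | monomial k c =>
    simp only [eval_monomial]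
    rw [Multiset.sum_map_mul_left]
    rcases Nat.eq_zero_or_pos k with hk | hk
    · subst hk
      simp
    · rw [h k hk, coeff_monomial, if_neg (by omega)]
      simp

theorem NWT_thm : NWTStmt := by
  classical
  intro s h a ha
  set T : Finset ℂ := s.toFinset.erase 0 with hT
  set P : ℂ[X] := 1 - ∏ b ∈ T, (1 - C (b⁻¹) * X) with hP
  have h0 : P.eval 0 = 0 := by
    rw [hP, eval_sub, eval_one, eval_prod]
    simp
  have h1 : ∀ b ∈ T, P.eval b = 1 := by
    intro b hb
    have hb0 : b ≠ 0 := Finset.ne_of_mem_erase hb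
    rw [hP, eval_sub, eval_one, eval_prod, Finset.prod_eq_zero hb]
    · simp
    · simp [inv_mul_cancel₀ hb0]
  have h2 := nwt_ev s h P
  rw [coeff_zero_eq_eval_zero] at h2
  rw [h0, zero_mul] at h2
  have h3 : s.map (fun a => P.eval a) = (s.map fun a => if a = 0 then 0 else 1).map
      (fun n : ℕ => (n : ℂ)) := by
    rw [Multiset.map_map]
    refine Multiset.map_congr rfl fun b hb => ?_
    by_cases hb0 : b = 0
    · simp [hb0, h0]
    · rw [h1 b (Finset.mem_erase.mpr ⟨hb0, Multiset.mem_toFinset.mpr hb⟩)]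
      simp [hb0]
  rw [h3] at h2
  have h4 : ((s.map fun a => if a = 0 then 0 else 1).sum : ℕ) = 0 := by
    have : (((s.map fun a => if a = 0 then 0 else 1).sum : ℕ) : ℂ) = 0 :=
      (map_multiset_sum (Nat.castRingHom ℂ) _).trans h2
    exact_mod_cast this
  rw [Multiset.sum_eq_zero_iff] at h4
  have h5 := h4 _ (Multiset.mem_map_of_mem _ ha)
  by_contra hne
  simp [hne] at h5

end Pool.LPC
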